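import Pool.Agent.Helper80_PND.Asm
import Pool.Agent.Helper80_TWC.All
import Pool.Agent.Helper3_PND.Cyc
import Pool.Agent.Helper87_PND.Xfr
import Pool.Agent.Helper76_PND.Pcb
import Pool.Agent.Helper83_PND.Clr

/-!
# MP_ff6f12_co, squad PND: assembly
-/

set_option autoImplicit false

open SimpleGraph

namespace Pool.Agent.PND80.H80

open Pool.Agent.RS80 Pool.Agent.RS81 Pool.Agent.SEP60 Pool.Agent.TWC80

/-- A 2-connected bipartite graph is not Ramsey equivalent to itself with pendant edges. -/
theorem neqPAll : NeqPStmt :=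
  neqP TWC80.H32.hyk (arc TWC80.H32.dgc) (H76.pcb (H87.xfr H3.cyc)) (H83.clr TWC80.H25.sys)
    TWC80.H91.mix TWC80.H91.kpm SEP60.H60.neqAll

/-- Every 2-connected bipartite graph with pendant edges is 2-Ramsey-simple. -/
theorem topPAll : TopPStmt := topP neqPAll SEP60.H60.mainAll TWC80.H80.topAll

end Pool.Agent.PND80.H80
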