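import Pool.Agent.Helper80_PND.Stmts
import Pool.Agent.Helper80_TWC.ArrB

/-!
# Squad PND, module ARC, part A: mixed hub patterns, abstract version (helper80)
-/

set_option autoImplicit false

open SimpleGraph

namespace Pool.Agent.PND80.H80

open Pool.Agent.RS80 Pool.Agent.RS81 Pool.Agent.SEP60 Pool.Agent.TWC80 Pool.Agent.TWC80.H80

/-- A world in a graph `G`: hubs, points, private hubs. -/
structure World {X Y E I : Type} (a M : ℕ) (G : SimpleGraph X) (inc : E → I → Y)
    (hub : Fin a → X) (pt : Y → X) (pr : E → Fin a → X) (t : Fin M → I) : Prop where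
  hubi : Function.Injective hub
  pti : Function.Injective pt
  pri : ∀ e e' h h', pr e h = pr e' h' → e = e' ∧ h = h'
  hp : ∀ h y, hub h ≠ pt y
  pp : ∀ e h y, pr e h ≠ pt y
  hpr : ∀ h e h', hub h ≠ pr e h'
  ti : Function.Injective t
  a1 : ∀ h y, G.Adj (hub h) (pt y)
  a2 : ∀ e m h, G.Adj (pr e h) (pt (inc e (t m)))

variable {X V Y E I : Type} {a M : ℕ}

/-- The local pattern of the private hubs. -/
noncomputable def locG (inc : E → I → Y) (Rg : SimpleGraph X) (pt : Y → X)
    (pr : E → Fin a → X) (t : Fin M → I) (e : E) (m : Fin M) (h : Fin a) : Bool := by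
  classical
  exact decide (Rg.Adj (pr e h) (pt (inc e (t m))))

theorem mixedG [Finite V] {B : SimpleGraph V}
    (hK : B ⊑ completeBipartiteGraph (Fin (a + 1)) (Fin (Nat.card V)))
    (hV : 1 ≤ Nat.card V)
    (hMix : ∀ i j : ℕ, 1 ≤ i → 1 ≤ j → i + j = a → B ⊑ MixHost i j (Nat.card V))
    (hM : 2 ^ a * Nat.card V < M)
    [Finite Y] [Finite E] {inc : E → I → Y} {G : SimpleGraph X}
    (hinc : ∀ e, Function.Injective (inc e)) (hL : LeafyI 2 inc)
    {hub : Fin a → X} {pt : Y → X} {pr : E → Fin a → X} {t : Fin M → I}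
    (hW : World a M G inc hub pt pr t)
    {Rg Sg : SimpleGraph X} (hgood : Good B G Rg Sg)
    (θ : Fin a → Bool) {h₀ h₁ : Fin a} (hh₀ : θ h₀ = true) (hh₁ : θ h₁ = false)
    (P : Y → Prop) (hP : ∀ y, P y → ∀ h, (Rg.Adj (hub h) (pt y) ↔ θ h = true)) :
    ∃ g : Y → Bool, ∀ e, (∀ i, P (inc e i)) → ¬ ∃ c, ∀ i, g (inc e i) = c := by
  classical
  have hq : 2 ≤ Nat.card V + 1 := by omega
  -- the local patterns
  choose ρ hρ using fun e => pigeon hM (locG inc Rg pt pr t e)
  have hS : ∀ y, P y → ∀ h, θ h = false → Sg.Adj (hub h) (pt y) := by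
    intro y hy h hh
    have h1 := gc_adj hgood (hW.a1 h y) true (fun hc => by
      have := (hP y hy h).1 hc
      rw [hh] at this
      exact Bool.false_ne_true this)
    exact h1
  have hRl : ∀ e m h, locG inc Rg pt pr t e m = ρ e → ρ e h = true →
      Rg.Adj (pr e h) (pt (inc e (t m))) := by
    intro e m h h1 h2
    rw [← h1] at h2
    exact of_decide_eq_true h2
  have hSl : ∀ e m h, locG inc Rg pt pr t e m = ρ e → ρ e h = false →
      Sg.Adj (pr e h) (pt (inc e (t m))) := by
    intro e m h h1 h2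
    rw [← h1] at h2
    exact gc_adj hgood (hW.a2 e m h) true (of_decide_eq_false h2)
  have ptinj : ∀ e, Function.Injective (fun m : Fin M => pt (inc e (t m))) := by
    intro e m m' h
    exact hW.ti (hinc e (hW.pti h))
  -- few local blue hubs
  have hfew : ∀ e, (∀ i, P (inc e i)) →
      {h | θ h = false}.ncard + {h | ρ e h = false}.ncard ≤ a := by
    intro e he
    by_contra hcon
    push Not at hcon
    apply gc_free hgood false
    refine hK.trans ?_
    let A₁ : Set X := hub '' {h | θ h = false}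
    let A₂ : Set X := pr e '' {h | ρ e h = false}
    let Z : Set X := (fun m : Fin M => pt (inc e (t m))) '' {m | locG inc Rg pt pr t e m = ρ e}
    have c1 : A₁.ncard = {h | θ h = false}.ncard := Set.ncard_image_of_injective _ hW.hubi
    have c2 : A₂.ncard = {h | ρ e h = false}.ncard := by
      apply Set.ncard_image_of_injective
      intro x y hxy
      exact (hW.pri _ _ _ _ hxy).2
    have c3 : Z.ncard = {m | locG inc Rg pt pr t e m = ρ e}.ncard :=
      Set.ncard_image_of_injective _ (ptinj e)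
    have c4 : Disjoint A₁ A₂ := by
      rw [Set.disjoint_left]
      rintro _ ⟨h, _, rfl⟩ ⟨h', _, hh⟩
      exact hW.hpr _ _ _ hh.symm
    have c5 : (A₁ ∪ A₂).ncard = A₁.ncard + A₂.ncard :=
      Set.ncard_union_eq c4 (Set.toFinite _) (Set.toFinite _)
    refine kk_set (Sg) (A₁ ∪ A₂) Z (Set.toFinite _) (Set.toFinite _) (by omega) ?_ ?_
    · rw [c3]
      have := hρ e
      omega
    · rintro x hx z ⟨m, hm, rfl⟩
      rcases hx with ⟨h, hh, rfl⟩ | ⟨h, hh, rfl⟩
      · exact hS _ (he _) h hh
      · exact hSl e m h hm hh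
  -- the sets are disjoint
  have hdis : ∀ e e', (∀ i, P (inc e i)) → (∀ i, P (inc e' i)) → e ≠ e' →
      ∀ m m', locG inc Rg pt pr t e m = ρ e → locG inc Rg pt pr t e' m' = ρ e' →
      inc e (t m) ≠ inc e' (t m') := by
    intro e e' he he' hne m m' hm hm' hcom
    -- two hyperedges have at most one common point
    have hone : ∀ i j i' j', inc e i = inc e' i' → inc e j = inc e' j' → i = j := by
      intro i j i' j' h1 h2
      obtain ⟨x, hx, hx'⟩ := hL {e, e'} ⟨e, Or.inl rfl⟩ (by
        rw [Set.ncard_pair hne])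
      rcases hx with rfl | hx
      · exact hx' i j ⟨e', Or.inr rfl, hne.symm, i', h1.symm⟩ ⟨e', Or.inr rfl, hne.symm, j', h2.symm⟩
      · have hx : x = e' := hx
        subst hx
        have h3 := hx' i' j' ⟨e, Or.inl rfl, hne, i, h1⟩ ⟨e, Or.inl rfl, hne, j, h2⟩
        apply hinc e
        rw [h1, h2, h3]
    -- the numbers
    have hi1 : 1 ≤ {h | θ h = true}.ncard := (Set.ncard_pos (Set.toFinite _)).2 ⟨h₀, hh₀⟩
    have hj1 : 1 ≤ {h | θ h = false}.ncard := (Set.ncard_pos (Set.toFinite _)).2 ⟨h₁, hh₁⟩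
    have hij := count θ
    have hloc : ∀ e, (∀ i, P (inc e i)) → {h | θ h = false}.ncard ≤ {h | ρ e h = true}.ncard := by
      intro e he
      have h1 := hfew e he
      have h2 := count (ρ e)
      omega
    obtain ⟨f, hf, hf'⟩ := exists_fin {h | θ h = true} (Set.toFinite _) le_rfl
    obtain ⟨u, hu, hu'⟩ := exists_fin {h | ρ e h = true} (Set.toFinite _) (hloc e he)
    obtain ⟨u', hu1, hu1'⟩ := exists_fin {h | ρ e' h = true} (Set.toFinite _) (hloc e' he')
    have hq1 : Nat.card V ≤ ({m | locG inc Rg pt pr t e m = ρ e} \ {m}).ncard := by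
      have h1 := hρ e
      have h2 := Set.ncard_sdiff_singleton_add_one (s := {m | locG inc Rg pt pr t e m = ρ e}) hm
        (Set.toFinite _)
      omega
    have hq2 : Nat.card V ≤ ({m | locG inc Rg pt pr t e' m = ρ e'} \ {m'}).ncard := by
      have h1 := hρ e'
      have h2 := Set.ncard_sdiff_singleton_add_one (s := {m | locG inc Rg pt pr t e' m = ρ e'}) hm'
        (Set.toFinite _)
      omega
    obtain ⟨w, hw, hw'⟩ := exists_fin _ (Set.toFinite _) hq1
    obtain ⟨w', hw1, hw1'⟩ := exists_fin _ (Set.toFinite _) hq2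
    apply gc_free hgood true
    refine (hMix _ _ hi1 hj1 hij).trans ?_
    refine mh Rg (fun h => hub (f h))
      (fun β h => if β = true then pr e (u h) else pr e' (u' h))
      (fun β z => if β = true then pt (inc e (t (w z))) else pt (inc e' (t (w' z))))
      (pt (inc e (t m))) ?_ ?_ ?_ ?_ ?_ ?_ ?_ ?_ ?_ ?_ ?_ ?_
    · intro x y hxy
      exact hf (hW.hubi hxy)
    · rintro (_ | _) x y hxy
      · exact hu1 (hW.pri _ _ _ _ hxy).2
      · exact hu (hW.pri _ _ _ _ hxy).2
    · rintro (_ | _) x y hxy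
      · exact hw1 (hW.ti (hinc e' (hW.pti hxy)))
      · exact hw (hW.ti (hinc e (hW.pti hxy)))
    · rintro h (_ | _) h' hh
      · exact hW.hpr _ _ _ hh
      · exact hW.hpr _ _ _ hh
    · intro h h' hh
      exact hne (hW.pri _ _ _ _ hh).1
    · intro z z' hh
      have h1 : inc e (t (w z)) = inc e' (t (w' z')) := hW.pti hh
      have h2 := hone _ _ _ _ h1 hcom
      exact (hw' z).2 (hW.ti h2)
    · rintro (_ | _) z hh
      · have h1 : inc e' (t (w' z)) = inc e (t m) := hW.pti hh
        rw [hcom] at h1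
        exact (hw1' z).2 (hW.ti (hinc e' h1))
      · have h1 : inc e (t (w z)) = inc e (t m) := hW.pti hh
        exact (hw' z).2 (hW.ti (hinc e h1))
    · rintro (_ | _) h (_ | _) z hh
      · exact hW.pp _ _ _ hh
      · exact hW.pp _ _ _ hh
      · exact hW.pp _ _ _ hh
      · exact hW.pp _ _ _ hh
    · rintro h (_ | _) z
      · exact (hP _ (he' _) _).2 (hf' h)
      · exact (hP _ (he _) _).2 (hf' h)
    · intro h
      exact (hP _ (he _) _).2 (hf' h)
    · rintro (_ | _) h z
      · exact hRl e' (w' z) (u' h) (hw1' z).1 (hu1' h)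
      · exact hRl e (w z) (u h) (hw' z).1 (hu' h)
    · rintro (_ | _) h
      · have h1 := hRl e' m' (u' h) hm' (hu1' h)
        rw [← hcom] at h1
        exact h1
      · exact hRl e m (u h) hm (hu' h)
  -- the colouring
  have htwo : ∀ e, ∃ l l' : Fin M, locG inc Rg pt pr t e l = ρ e ∧
      locG inc Rg pt pr t e l' = ρ e ∧ l' ≠ l := by
    intro e
    have h1 : 1 < {m | locG inc Rg pt pr t e m = ρ e}.ncard := by
      have := hρ e
      omega
    obtain ⟨l, hl, l', hl', hne⟩ := (Set.one_lt_ncard (Set.toFinite _)).1 h1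
    exact ⟨l, l', hl, hl', hne.symm⟩
  choose l l' hl hl' hll using htwo
  refine ⟨fun y => decide (∃ e, (∀ i, P (inc e i)) ∧ y = inc e (t (l e))), ?_⟩
  rintro e he ⟨c, hc⟩
  have h1 := hc (t (l e))
  have h2 := hc (t (l' e))
  have h3 : decide (∃ e', (∀ i, P (inc e' i)) ∧ inc e (t (l e)) = inc e' (t (l e'))) =
      true := decide_eq_true ⟨e, he, rfl⟩
  have h4 : decide (∃ e', (∀ i, P (inc e' i)) ∧ inc e (t (l' e)) = inc e' (t (l e'))) =
      true := by
    rw [← h3]
    exact h2.trans h1.symm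
  obtain ⟨e', he', h5⟩ := of_decide_eq_true h4
  by_cases hee : e = e'
  · subst hee
    exact hll e (hW.ti (hinc e h5))
  · exact hdis e e' he he' hee (l' e) (l e') (hl' e) (hl e') h5

/-- Few edges of the colour of the hubs to the points of a pure class. -/
theorem fewG [Finite V] {B : SimpleGraph V}
    (hK : B ⊑ completeBipartiteGraph (Fin (a + 1)) (Fin (Nat.card V)))
    [Finite Y] {G : SimpleGraph X} {Rg Sg : SimpleGraph X} (hgood : Good B G Rg Sg)
    {hub : Fin a → X} {pt : Y → X} (hi : Function.Injective hub) (pi : Function.Injective pt)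
    (k : Bool) (P : Y → Prop) (hP : ∀ y, P y → ∀ h, (gc Rg Sg k).Adj (hub h) (pt y))
    (v : X) (hv : ∀ h, v ≠ hub h) :
    {w | P w ∧ (gc Rg Sg k).Adj v (pt w)}.ncard ≤ Nat.card V := by
  classical
  by_contra hcon
  push Not at hcon
  apply gc_free hgood k
  refine hK.trans ?_
  have c1 : (Set.range hub).ncard = a := by
    rw [← Set.image_univ, Set.ncard_image_of_injective _ hi, Set.ncard_univ,
      Nat.card_eq_fintype_card, Fintype.card_fin]
  have c2 : (insert v (Set.range hub)).ncard = (Set.range hub).ncard + 1 := by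
    apply Set.ncard_insert_of_notMem _ (Set.toFinite _)
    rintro ⟨h, hh⟩
    exact hv h hh.symm
  have c3 : (pt '' {w | P w ∧ (gc Rg Sg k).Adj v (pt w)}).ncard =
      {w | P w ∧ (gc Rg Sg k).Adj v (pt w)}.ncard := Set.ncard_image_of_injective _ pi
  refine kk_set (gc Rg Sg k) (insert v (Set.range hub))
    (pt '' {w | P w ∧ (gc Rg Sg k).Adj v (pt w)}) (Set.toFinite _)
    (Set.toFinite _) (by omega) (by omega) ?_
  rintro x hx z ⟨w, hw, rfl⟩
  rcases hx with rfl | ⟨h, rfl⟩
  · exact hw.2
  · exact hP w hw.1 h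

end Pool.Agent.PND80.H80
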