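import Pool.Agent.Helper80_PND.ArcA

/-!
# Squad PND, module ARC, part B: pure hub patterns, and the theorem (helper80)
-/

set_option autoImplicit false

open SimpleGraph

namespace Pool.Agent.PND80.H80

open Pool.Agent.RS80 Pool.Agent.RS81 Pool.Agent.SEP60 Pool.Agent.TWC80 Pool.Agent.TWC80.H80

section

variable {V Y E : Type} {a M N : ℕ}

/-- The graph of the squad. -/
abbrev HH (B : SimpleGraph V) (κ : V → Bool) (x y : V) (a : ℕ) (inc : E → Ix V M N → Y) :
    SimpleGraph (Wh V a Y E) :=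
  hubG V a Y E ⊔ celG B a Y E ⊔ sysG inc (pcs B κ x y a M N)

/-- point -/
abbrev po (y : Y) : Wh V a Y E := .inr (.inl (y, true))

/-- cell vertex -/
abbrev ce (e : E) (i : V) : Wh V a Y E := .inr (.inr (e, .inr i))

/-- private hub -/
abbrev ph (e : E) (h : Fin a) : Wh V a Y E := .inr (.inr (e, .inl h))

theorem hh_hub (B : SimpleGraph V) (κ : V → Bool) (x y : V) (inc : E → Ix V M N → Y)
    (h : Fin a) (z : Y) : (HH B κ x y a inc).Adj (.inl h) (po z) := by
  refine Or.inl (Or.inl ?_)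
  rw [hubG, SimpleGraph.fromRel_adj]
  exact ⟨Sum.inl_ne_inr, Or.inl ⟨h, (z, true), rfl, rfl⟩⟩

theorem hh_cel (B : SimpleGraph V) (κ : V → Bool) (x y : V) (inc : E → Ix V M N → Y)
    (e : E) {i j : V} (h : B.Adj i j) : (HH B κ x y a inc).Adj (ce e i) (ce e j) := by
  refine Or.inl (Or.inr ?_)
  rw [celG, SimpleGraph.fromRel_adj]
  refine ⟨fun hh => h.ne ?_, Or.inl ⟨e, i, j, h, rfl, rfl⟩⟩
  simpa using hh

theorem hh_pcs (B : SimpleGraph V) (κ : V → Bool) (x y : V) (inc : E → Ix V M N → Y)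
    (e : E) (hi : Function.Injective (inc e)) {z z' : Ix V M N ⊕ Qx V a}
    (h : (pcs B κ x y a M N).Adj z z') :
    (HH B κ x y a inc).Adj (.inr (em (fun _ => true) inc e z))
      (.inr (em (fun _ => true) inc e z')) := by
  have hne : em (fun _ => true) inc e z ≠ em (fun _ => true) inc e z' :=
    fun hh => h.ne (em_inj _ inc e hi hh)
  refine Or.inr ?_
  rw [sysG, SimpleGraph.fromRel_adj]
  refine ⟨fun hh => hne (Sum.inr_injective hh), Or.inl ⟨_, _, ?_, rfl, rfl⟩⟩
  rw [Sys, SimpleGraph.fromRel_adj]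
  exact ⟨hne, Or.inl ⟨e, z, z', h, rfl, rfl⟩⟩

theorem cp_ne {x y i j : V} (hxy : x ≠ y) (hij : i ≠ j) {c : Fin N} {w w' : V} (h : w ≠ w') :
    (cp x y i j c w : Ix V M N ⊕ Qx V a) ≠ cp x y i j c w' := by
  unfold cp
  split_ifs with h1 h2 h3 h4 h5 h6 h7 h8
  · exact absurd (h1.trans h2.symm) h
  · simpa using hij
  · simp
  · simpa using fun hh => hij hh.symm
  · exact absurd (h4.trans h6.symm) h
  · simp
  · simp
  · simp
  · simp only [ne_eq, Sum.inl.injEq, Sum.inr.injEq, Prod.mk.injEq, true_and]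
    exact h

theorem pcs_cp {B : SimpleGraph V} {κ : V → Bool} {x y i j : V} (hxy : x ≠ y)
    (hij : B.Adj i j) (hi : κ i = κ x) (c : Fin N) {w w' : V} (h : B.Adj w w')
    (hne : s(w, w') ≠ s(x, y)) :
    (pcs B κ x y a M N).Adj (cp x y i j c w) (cp x y i j c w') := by
  rw [pcs, SimpleGraph.fromRel_adj]
  exact ⟨cp_ne hxy hij.ne h.ne, Or.inl (Or.inr ⟨i, j, c, w, w', hij, hi, h, hne, rfl, rfl⟩)⟩

theorem hh_world (B : SimpleGraph V) (κ : V → Bool) (x y : V) (inc : E → Ix V M N → Y)
    (hinc : ∀ e, Function.Injective (inc e)) :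
    World a M (HH B κ x y a inc) inc (fun h => (.inl h : Wh V a Y E)) po ph Sum.inl where
  hubi := Sum.inl_injective
  pti := fun y y' h => by simpa using h
  pri := fun e e' h h' hh => by simpa using hh
  hp := fun h y => Sum.inl_ne_inr
  pp := fun e h y hh => by simp at hh
  hpr := fun h e h' => Sum.inl_ne_inr
  ti := Sum.inl_injective
  a1 := hh_hub B κ x y inc
  a2 := fun e m h => by
    have h1 : (pcs B κ x y a M N).Adj (.inr (.inl h)) (.inl (.inl m)) := by
      rw [pcs, SimpleGraph.fromRel_adj]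
      exact ⟨Sum.inr_ne_inl, Or.inr (Or.inl ⟨m, h, rfl, rfl⟩)⟩
    exact hh_pcs B κ x y inc e (hinc e) h1

theorem pureP (dgc : DgcStmt) [Finite V] {B : SimpleGraph V} {κ : V → Bool} {x y : V}
    (hκ : ∀ x y, B.Adj x y → κ x ≠ κ y) (hxy : B.Adj x y)
    (hK : B ⊑ completeBipartiteGraph (Fin (a + 1)) (Fin (Nat.card V)))
    (hN : 2 * Nat.card V < N)
    [Finite Y] [Finite E] {inc : E → Ix V M N → Y}
    (hinc : ∀ e, Function.Injective (inc e))
    {Rg Sg : SimpleGraph (Wh V a Y E)} (hgood : Good B (HH B κ x y a inc) Rg Sg)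
    (k : Bool) (P : Y → Prop)
    (hP : ∀ z, P z → ∀ h, (gc Rg Sg k).Adj (.inl h) (po z)) :
    ∃ g : Y → Fin (2 * Nat.card V + 1), ∀ e, (∀ i, P (inc e i)) →
      ¬ ∃ c, ∀ i, g (inc e i) = c := by
  classical
  have poi : Function.Injective (po : Y → Wh V a Y E) := fun y y' h => by simpa using h
  have few : ∀ v : Wh V a Y E, (∀ h, v ≠ .inl h) →
      {w | P w ∧ (gc Rg Sg k).Adj v (po w)}.ncard ≤ Nat.card V := fun v hv =>
    fewG hK hgood Sum.inl_injective poi k P hP v hv
  obtain ⟨g, hg⟩ := dgc Y (fun v w => P w ∧ (gc Rg Sg k).Adj (po v) (po w)) (Nat.card V)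
    (fun v => few _ (fun h hh => by simp at hh))
  refine ⟨g, ?_⟩
  rintro e he ⟨c, hc⟩
  have hpp : ∀ i i', i ≠ i' → ¬ (gc Rg Sg k).Adj (po (inc e i)) (po (inc e i')) := by
    intro i i' hii hadj
    refine hg (inc e i) (inc e i') (fun h => hii (hinc e h)) ⟨he i', hadj⟩ ?_
    rw [hc i, hc i']
  -- few spoiled copies
  have hbad : ∀ i j v : V, {c : Fin N | ∃ w, (gc Rg Sg k).Adj (ce e v)
      (po (inc e (.inr (i, j, c, w))))}.ncard ≤ Nat.card V := by
    intro i j v
    refine le_trans ?_ (few (ce e v) (fun h hh => by simp at hh))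
    have hch : ∀ c : {c : Fin N | ∃ w, (gc Rg Sg k).Adj (ce e v)
        (po (inc e (.inr (i, j, c, w))))}, ∃ w, (gc Rg Sg k).Adj (ce e v)
        (po (inc e (.inr (i, j, c.1, w)))) := fun c => c.2
    choose F hF using hch
    rw [← Nat.card_coe_set_eq, ← Nat.card_coe_set_eq]
    refine Nat.card_le_card_of_injective
      (fun c => (⟨inc e (.inr (i, j, c.1, F c)), he _, hF c⟩ :
        {w | P w ∧ (gc Rg Sg k).Adj (ce e v) (po w)})) ?_
    intro c c' hcc
    have h1 := hinc e (congrArg Subtype.val hcc)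
    have h2 := Sum.inr.inj h1
    simp only [Prod.mk.injEq, true_and] at h2
    exact Subtype.ext h2.1
  -- all edges of the cell have the colour `k`
  have hcell : ∀ i j, B.Adj i j → κ i = κ x → (gc Rg Sg k).Adj (ce e i) (ce e j) := by
    intro i j hij hi
    by_contra hcon
    have hcon' := gc_adj hgood (hh_cel B κ x y inc e hij) k hcon
    -- a good copy
    obtain ⟨c, hc1, hc2⟩ : ∃ c : Fin N,
        (¬ ∃ w, (gc Rg Sg k).Adj (ce e i) (po (inc e (.inr (i, j, c, w))))) ∧
        (¬ ∃ w, (gc Rg Sg k).Adj (ce e j) (po (inc e (.inr (i, j, c, w))))) := by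
      by_contra hno
      push Not at hno
      have h1 : (Set.univ : Set (Fin N)) ⊆
          {c : Fin N | ∃ w, (gc Rg Sg k).Adj (ce e i) (po (inc e (.inr (i, j, c, w))))} ∪
          {c : Fin N | ∃ w, (gc Rg Sg k).Adj (ce e j) (po (inc e (.inr (i, j, c, w))))} := by
        intro c _
        by_cases h : ∃ w, (gc Rg Sg k).Adj (ce e i) (po (inc e (.inr (i, j, c, w))))
        · exact Or.inl h
        · exact Or.inr (hno c (fun w hw => h ⟨w, hw⟩))
      have h2 := Set.ncard_le_ncard h1 (Set.toFinite _)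
      have h3 := Set.ncard_union_le
        {c : Fin N | ∃ w, (gc Rg Sg k).Adj (ce e i) (po (inc e (.inr (i, j, c, w))))}
        {c : Fin N | ∃ w, (gc Rg Sg k).Adj (ce e j) (po (inc e (.inr (i, j, c, w))))}
      have h4 := hbad i j i
      have h5 := hbad i j j
      rw [Set.ncard_univ, Nat.card_eq_fintype_card, Fintype.card_fin] at h2
      omega
    -- the copy of `B`
    apply gc_free hgood (!k)
    have hxy' : x ≠ y := hxy.ne
    let φ : V → Wh V a Y E := fun w =>
      .inr (em (fun _ => true) inc e (cp x y i j c w))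
    have hφx : φ x = ce e i := by
      show Sum.inr (em _ inc e (cp x y i j c x)) = _
      unfold cp
      rw [if_pos rfl]
      rfl
    have hφy : φ y = ce e j := by
      show Sum.inr (em _ inc e (cp x y i j c y)) = _
      unfold cp
      rw [if_neg hxy'.symm, if_pos rfl]
      rfl
    have hφw : ∀ w, w ≠ x → w ≠ y → φ w = po (inc e (.inr (i, j, c, w))) := by
      intro w h1 h2
      show Sum.inr (em _ inc e (cp x y i j c w)) = _
      unfold cp
      rw [if_neg h1, if_neg h2]
      rfl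
    have hφi : Function.Injective φ := by
      intro w w' hw
      by_contra hne
      exact cp_ne (M := M) (a := a) hxy' hij.ne (c := c) hne
        (em_inj _ inc e (hinc e) (Sum.inr_injective hw))
    have hno : ∀ w w', B.Adj w w' → s(w, w') ≠ s(x, y) → ¬ (gc Rg Sg k).Adj (φ w) (φ w') := by
      intro w w' hw hne hadj
      by_cases h1 : w = x
      · by_cases h3 : w' = x
        · exact hw.ne (h1.trans h3.symm)
        by_cases h4 : w' = y
        · rw [h1, h4] at hne
          exact hne rfl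
        · rw [h1, hφx, hφw w' h3 h4] at hadj
          exact hc1 ⟨w', hadj⟩
      by_cases h2 : w = y
      · by_cases h3 : w' = x
        · rw [h2, h3] at hne
          exact hne Sym2.eq_swap
        by_cases h4 : w' = y
        · exact hw.ne (h2.trans h4.symm)
        · rw [h2, hφy, hφw w' h3 h4] at hadj
          exact hc2 ⟨w', hadj⟩
      by_cases h3 : w' = x
      · rw [h3, hφx, hφw w h1 h2] at hadj
        exact hc1 ⟨w, hadj.symm⟩
      by_cases h4 : w' = y
      · rw [h4, hφy, hφw w h1 h2] at hadj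
        exact hc2 ⟨w, hadj.symm⟩
      rw [hφw w h1 h2, hφw w' h3 h4] at hadj
      refine hpp _ _ (fun hh => hw.ne ?_) hadj
      have h5 := Sum.inr.inj hh
      simp only [Prod.mk.injEq, true_and] at h5
      exact h5
    refine ⟨⟨⟨φ, ?_⟩, hφi⟩⟩
    intro w w' hw
    by_cases hne : s(w, w') = s(x, y)
    · rw [Sym2.eq_iff] at hne
      rcases hne with ⟨rfl, rfl⟩ | ⟨rfl, rfl⟩
      · show (gc Rg Sg !k).Adj (φ w) (φ w')
        rw [hφx, hφy]
        exact hcon'
      · show (gc Rg Sg !k).Adj (φ w) (φ w')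
        rw [hφx, hφy]
        exact hcon'.symm
    · exact gc_adj hgood (hh_pcs B κ x y inc e (hinc e) (pcs_cp hxy' hij hi c hw hne)) k
        (hno w w' hw hne)
  -- the monochromatic cell
  apply gc_free hgood k
  refine ⟨⟨⟨fun i => ce e i, ?_⟩, ?_⟩⟩
  · intro i j hij
    by_cases hi : κ i = κ x
    · exact hcell i j hij hi
    · have hj : κ j = κ x := by
        have h1 := hκ i j hij
        revert h1 hi
        generalize κ i = p
        generalize κ j = q
        generalize κ x = s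
        revert p q s
        decide
      exact (hcell j i hij.symm hj).symm
  · intro i j hij
    simpa using hij

/-- ARC -/
theorem arc (dgc : DgcStmt) : ArcStmt := by
  classical
  intro V _ B κ x y a ha hκ hxy hV hK hMix M N hM hN Y E _ _ inc hinc hL hχ
  rintro ⟨Rg, Sg, hgood⟩
  let θ : Y → Fin a → Bool := fun z h => decide (Rg.Adj (.inl h) (po z))
  have key : ∀ θ₀ : Fin a → Bool, ∃ g : Y → Fin (2 * Nat.card V + 1), ∀ e,
      (∀ i, θ (inc e i) = θ₀) → ¬ ∃ c, ∀ i, g (inc e i) = c := by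
    intro θ₀
    by_cases hmix : ∃ h₀ h₁, θ₀ h₀ = true ∧ θ₀ h₁ = false
    · obtain ⟨h₀, h₁, hh₀, hh₁⟩ := hmix
      obtain ⟨g, hg⟩ := mixedG hK (by omega) hMix hM hinc hL (hh_world B κ x y inc hinc) hgood
        θ₀ hh₀ hh₁ (fun z => θ z = θ₀) (fun z hz h => by
          have h1 : θ z h = θ₀ h := by rw [hz]
          rw [← h1]
          exact (decide_eq_true_iff).symm)
      refine ⟨fun z => ⟨if g z = true then 1 else 0, by split_ifs <;> omega⟩, ?_⟩
      rintro e he ⟨c, hc⟩
      have hM0 : 0 < M := by omega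
      refine hg e he ⟨g (inc e (.inl ⟨0, hM0⟩)), fun i => ?_⟩
      have h1 := hc i
      have h2 := hc (.inl ⟨0, hM0⟩)
      rw [← h2] at h1
      have h3 : (if g (inc e i) = true then 1 else 0) =
          (if g (inc e (.inl ⟨0, hM0⟩)) = true then 1 else 0) := congrArg Fin.val h1
      revert h3
      generalize g (inc e i) = p
      generalize g (inc e (.inl ⟨0, hM0⟩)) = q
      revert p q
      decide
    · push Not at hmix
      have hk : ∀ h, θ₀ h = θ₀ ⟨0, ha⟩ := by
        intro h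
        cases h1 : θ₀ h <;> cases h2 : θ₀ ⟨0, ha⟩
        · rfl
        · exact absurd h1 (hmix _ _ h2)
        · exact absurd h2 (hmix _ _ h1)
        · rfl
      refine pureP dgc hκ hxy hK hN hinc hgood (θ₀ ⟨0, ha⟩) (fun z => θ z = θ₀) ?_
      intro z hz h
      have h1 : θ z h = θ₀ ⟨0, ha⟩ := by rw [hz, hk]
      cases h2 : θ₀ ⟨0, ha⟩
      · rw [h2] at h1
        exact gc_adj hgood (hh_hub B κ x y inc h z) true (of_decide_eq_false h1)
      · rw [h2] at h1
        exact of_decide_eq_true h1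
  choose g hg using key
  obtain ⟨e, c, hc⟩ := hχ (fun z => (θ z, g (θ z) z))
  refine hg c.1 e (fun i => congrArg Prod.fst (hc i)) ⟨c.2, fun i => ?_⟩
  have h1 := congrArg Prod.snd (hc i)
  have h2 : θ (inc e i) = c.1 := congrArg Prod.fst (hc i)
  have h3 : g (θ (inc e i)) (inc e i) = c.2 := h1
  rw [h2] at h3
  exact h3

end

end Pool.Agent.PND80.H80
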