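import Pool.Agent.Helper80_PND.ArcB
import Pool.Agent.Helper80_TWC.Asm
import Pool.Agent.Helper60_SEP.Fin
import Pool.Agent.Helper60_RS.Basic
import Pool.Agent.Helper80_RS2.Cel

/-!
# Squad PND, assembly (helper80)
-/

set_option autoImplicit false

open SimpleGraph

namespace Pool.Agent.PND80.H80

open Pool.Agent.RS80 Pool.Agent.RS81 Pool.Agent.SEP60 Pool.Agent.TWC80

/-- the case of an opposite cut -/
theorem oppP (hyk : HykStmt) (arc : ArcStmt) (pcb : PcbStmt) (clr : ClrStmt)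
    (mix : TWC80.MixStmt) (kpm : KpmStmt) {V : Type} [Finite V] {B : SimpleGraph V}
    (hB : TwoConn B) {κ : V → Bool} (hκ : ∀ x y, B.Adj x y → κ x ≠ κ y)
    {x₀ y₀ : V} (hxy : κ x₀ ≠ κ y₀) (hcut : ¬ (B.induce {x₀, y₀}ᶜ).Preconnected)
    (hle : {v | κ v = κ x₀}.ncard ≤ {v | κ v ≠ κ x₀}.ncard) (ℓ : V → ℕ)
    (hl : ∃ v, 0 < ℓ v) : ¬ RamseyEquiv B (pendL B ℓ) := by
  classical
  intro heq
  have hV : 3 ≤ Nat.card V := hB.1
  -- the size of the smaller side
  obtain ⟨w, hwx, hw⟩ := hB.exists_adj_ne y₀ x₀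
  have hwc : κ w = κ x₀ := by
    have h1 := hκ _ _ hw
    revert h1 hxy
    generalize κ w = p
    generalize κ x₀ = q
    generalize κ y₀ = r
    revert p q r
    decide
  have h2 : 2 ≤ {v | κ v = κ x₀}.ncard := by
    have h3 : ({w, x₀} : Set V) ⊆ {v | κ v = κ x₀} := by
      rintro v (rfl | h)
      · exact hwc
      · rw [Set.mem_singleton_iff] at h
        exact h ▸ rfl
    have h4 := Set.ncard_le_ncard h3 (Set.toFinite _)
    rwa [Set.ncard_pair hwx] at h4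
  obtain ⟨a, ha⟩ : ∃ a, {v | κ v = κ x₀}.ncard = a + 1 :=
    ⟨{v | κ v = κ x₀}.ncard - 1, by omega⟩
  have ha1 : 1 ≤ a := by omega
  obtain ⟨hfree, hcont⟩ := kpm V B κ (κ x₀) a hB.2.1 hκ ha (by omega)
  obtain ⟨M, hM⟩ : ∃ M, M = 2 ^ a * Nat.card V + 1 := ⟨_, rfl⟩
  obtain ⟨N, hN⟩ : ∃ N, N = 2 * Nat.card V + 1 := ⟨_, rfl⟩
  have hM2 : 2 ≤ M := by
    have : 1 ≤ 2 ^ a := Nat.one_le_two_pow
    nlinarith
  obtain ⟨Y, E, _, _, inc, hinc, hL, hχ⟩ :=
    hyk (Ix V M N) (Cx a (Nat.card V)) (Nat.card V ^ 2)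
      (by
        rw [Nat.card_sum, Nat.card_fin]
        omega)
      (Nat.one_le_iff_ne_zero.2 (by positivity))
  have hpos : 2 ≤ Nat.card V ^ 2 := by nlinarith
  -- the graph
  obtain ⟨F, hF⟩ : ∃ F, F = hubG V a Y E ⊔ celG B a Y E ⊔ sysG inc (pcs B κ w y₀ a M N) :=
    ⟨_, rfl⟩
  have h1 : ¬ InC B F := by
    rw [hF]
    exact arc V B κ w y₀ a ha1 hκ hw.symm (by omega) hcont
      (fun i j hi hj hij => mix V B κ hB hκ x₀ y₀ hxy hcut i j hi hj (by omega)) M N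
      (by omega) (by omega) Y E inc hinc (TWC80.H80.LeafyI.mono hL hpos) hχ
  have harr : Arrows F B := by
    by_contra h
    exact h1 (H60.not_arrows_iff.1 h)
  -- transfer
  have harr' : Arrows F (pendL B ℓ) := by
    let e : Wh V a Y E ≃ Fin (Nat.card (Wh V a Y E)) := Finite.equivFin _
    have hiso : F ≃g F.map e.toEmbedding := Iso.map e F
    have h5 := H60.arrows_of_iso hiso harr
    exact H60.arrows_of_iso hiso.symm ((heq _ _).1 h5)
  -- the colouring
  have hsub : B ⊑ pendL B ℓ := ⟨⟨⟨Sum.inl, fun {x y} h => h⟩, fun x y h => Sum.inl_injective h⟩⟩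
  have hcard : Nat.card V < Nat.card (V ⊕ Σ v, Fin (ℓ v)) := by
    have := Fintype.ofFinite V
    rw [card_pendL]
    obtain ⟨v, hv⟩ := hl
    have h3 : ℓ v ≤ ∑ v, ℓ v := Finset.single_le_sum (fun _ _ => Nat.zero_le _)
      (Finset.mem_univ v)
    omega
  obtain ⟨h3, h4⟩ := clr V B hB a hfree (Ix V M N) Y E inc (pcs B κ w y₀ a M N) hinc hL
    (pcb V B κ hB hκ w y₀ hw.symm a M N hfree) _ (pendL B ℓ)
    (H60.pendL_connected hB.2.1 ℓ) hsub hcard
  exact H60.not_arrows_iff.2 ⟨_, _, hF.symm, h3, h4⟩ harr'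

/-- The decorated graphs are not equivalent to the graph itself. -/
theorem neqP (hyk : HykStmt) (arc : ArcStmt) (pcb : PcbStmt) (clr : ClrStmt)
    (mix : TWC80.MixStmt) (kpm : KpmStmt) (neq : NeqStmt) : NeqPStmt := by
  intro V _ B ℓ hB hc hl
  by_cases hN : NoOpp B
  · exact neq V B ℓ hB hc hN hl
  · unfold NoOpp at hN
    push Not at hN
    obtain ⟨κ, hκ, x, y, hxy, hcut⟩ := hN
    have hcl : ∀ z w : V, κ z ≠ κ w → {v | κ v ≠ κ z} = {v | κ v = κ w} := by
      intro z w h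
      ext v
      show κ v ≠ κ z ↔ κ v = κ w
      revert h
      generalize κ v = p
      generalize κ z = q
      generalize κ w = r
      revert p q r
      decide
    rcases le_total {v | κ v = κ x}.ncard {v | κ v = κ y}.ncard with h | h
    · exact oppP hyk arc pcb clr mix kpm hB hκ hxy hcut (by rw [hcl x y hxy]; exact h) ℓ hl
    · rw [Set.pair_comm] at hcut
      exact oppP hyk arc pcb clr mix kpm hB hκ hxy.symm hcut
        (by rw [hcl y x hxy.symm]; exact h) ℓ hl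

/-- The theorem. -/
theorem topP (neqp : NeqPStmt) (main : RS81.MainStmt) (top : TWC80.TopStmt) : TopPStmt := by
  intro V _ B ℓ hB hc
  by_cases h : ∃ v, 0 < ℓ v
  · exact (main V B ℓ hB hc h).2 (neqp V B ℓ hB hc h)
  · exact SEP60.H60.simple_iso (SEP60.H60.pendLZero B ℓ fun v => by
      by_contra h1
      exact h ⟨v, Nat.pos_of_ne_zero h1⟩) (top V B hB hc)

end Pool.Agent.PND80.H80
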