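import Pool.Agent.Helper80_PND.All

/-!
# MP_ff6f12_co: a 2-connected bipartite graph is not Ramsey equivalent to a larger connected graph
containing it
-/

set_option autoImplicit false

open SimpleGraph

namespace Pool.Agent.PND80.H80

open Pool.Agent.RS80 Pool.Agent.RS81 Pool.Agent.SEP60 Pool.Agent.TWC80

theorem arrows_target {U V W : Type} {G : SimpleGraph U} {H : SimpleGraph V} {H' : SimpleGraph W}
    (h : H ⊑ H') (hG : Arrows G H') : Arrows G H :=
  fun R hR => (hG R hR).imp (fun h1 => h.trans h1) fun h1 => h.trans h1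

/-- A 2-connected bipartite graph is not Ramsey equivalent to a connected graph with more
vertices containing it. -/
theorem neqConn (V : Type) [Finite V] (B : SimpleGraph V) (hB : TwoConn B)
    (hc : B.Colorable 2) (W : Type) [Finite W] (H : SimpleGraph W) (hH : H.Connected)
    (hBH : B ⊑ H) (hcard : Nat.card V < Nat.card W) : ¬ RamseyEquiv B H := by
  classical
  intro heq
  obtain ⟨f⟩ := hBH
  -- an edge leaving the copy
  obtain ⟨w₀, hw₀⟩ : ∃ w, w ∉ Set.range f := by
    by_contra h
    push Not at h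
    have := Nat.card_le_card_of_surjective f h
    omega
  obtain ⟨v₀⟩ : Nonempty V := hB.2.1.nonempty
  obtain ⟨p⟩ := hH.preconnected (f v₀) w₀
  obtain ⟨d, -, hd1, hd2⟩ := p.exists_boundary_dart (Set.range f) ⟨v₀, rfl⟩ hw₀
  obtain ⟨v, hv⟩ := hd1
  have hadj : H.Adj (f v) d.snd := by
    rw [hv]
    exact d.adj
  -- the pendant edge
  let ℓ : V → ℕ := fun u => if u = v then 1 else 0
  have hℓ : ∀ z : Σ u, Fin (ℓ u), z.1 = v := by
    rintro ⟨u, i⟩
    by_contra h
    have h1 : ℓ u = 0 := if_neg h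
    have h2 := i.2
    omega
  have huniq : ∀ z z' : Σ u, Fin (ℓ u), z = z' := by
    rintro ⟨u, i⟩ ⟨u', i'⟩
    have h1 : u = v := hℓ ⟨u, i⟩
    have h2 : u' = v := hℓ ⟨u', i'⟩
    subst h1
    subst h2
    have h3 : ℓ u' = 1 := if_pos rfl
    have h4 := i.2
    have h5 := i'.2
    congr 1
    apply Fin.ext
    omega
  have hP : pendL B ℓ ⊑ H := by
    refine ⟨⟨⟨fun x => match x with
      | .inl u => f u
      | .inr _ => d.snd, ?_⟩, ?_⟩⟩
    · rintro (a | a) (b | b) hab
      · exact f.toHom.map_adj hab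
      · have h1 : a = b.1 := hab
        show H.Adj (f a) d.snd
        rw [h1, hℓ b]
        exact hadj
      · have h1 : b = a.1 := hab
        show H.Adj d.snd (f b)
        rw [h1, hℓ a]
        exact hadj.symm
      · exact hab.elim
    · rintro (a | a) (b | b) hab
      · exact congrArg Sum.inl (f.injective hab)
      · exact (hd2 ⟨a, hab⟩).elim
      · exact (hd2 ⟨b, hab.symm⟩).elim
      · exact congrArg Sum.inr (huniq a b)
  have hsub : B ⊑ pendL B ℓ := ⟨⟨⟨Sum.inl, fun {x y} h => h⟩, fun x y h => Sum.inl_injective h⟩⟩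
  refine neqPAll V B ℓ hB hc ⟨v, ?_⟩ fun n G => ⟨fun h => ?_, fun h => ?_⟩
  · show 0 < ℓ v
    simp [ℓ]
  · exact arrows_target hP ((heq n G).1 h)
  · exact arrows_target hsub h

end Pool.Agent.PND80.H80
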