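import Pool.Agent.Helper80_TWC.Stmts

/-!
# MP_ff6f12_co, squad PND: 2-connected bipartite graphs with pendant edges are 2-Ramsey-simple.
Definitions and statements of the modules. Paper proof: /team-store/PAPER_PND.md
-/

set_option autoImplicit false

open SimpleGraph

namespace Pool.Agent.PND80

open Pool.Agent.RS80 Pool.Agent.RS81 Pool.Agent.SEP60 Pool.Agent.TWC80

/-! ### Graphs glued from copies of `B - xy` -/

/-- CYC: in a 2-connected graph two edges lie on a common cycle. -/
def CycStmt : Prop :=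
  ∀ (V : Type) [Finite V] (B : SimpleGraph V), TwoConn B → ∀ x y s t : V, B.Adj x y →
    B.Adj s t → s(s, t) ≠ s(x, y) → ∃ p : B.Walk t s, p.IsPath ∧ s(x, y) ∈ p.edges

/-- XFR [Cyc]: a graph glued from copies `φ τ` of `B - xy` along vertices `x` and `y` does not
contain `B`. -/
def XfrStmt : Prop :=
  ∀ (V U T : Type) [Finite V] (B : SimpleGraph V), TwoConn B → ∀ x y : V, B.Adj x y →
    ∀ (X : SimpleGraph U) (φ : T → V → U) (ρ : U → V), (∀ τ w, ρ (φ τ w) = w) →
      (∀ a b, X.Adj a b → ∃ τ w w', B.Adj w w' ∧ s(w, w') ≠ s(x, y) ∧ a = φ τ w ∧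
        b = φ τ w') →
      (∀ τ τ' w, φ τ w = φ τ' w → τ ≠ τ' → w = x ∨ w = y) → B.Free X

/-! ### The piece -/

/-- Indices of the piece: `M` test points, the points of the closing copies. -/
abbrev Ix (V : Type) (M N : ℕ) : Type := Fin M ⊕ (V × V × Fin N × V)

/-- Private vertices of the piece: `a` private hubs, the cell. -/
abbrev Qx (V : Type) (a : ℕ) : Type := Fin a ⊕ V

open Classical in
/-- The vertex `w` of the copy `c` of `B - xy` closing the pair `i`, `j`. -/
noncomputable def cp {V : Type} {M N a : ℕ} (x y i j : V) (c : Fin N) (w : V) :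
    Ix V M N ⊕ Qx V a :=
  if w = x then .inr (.inr i) else if w = y then .inr (.inr j) else .inl (.inr (i, j, c, w))

/-- The piece: a complete bipartite graph between `M` points and the private hubs; `N` copies of
`B - xy` closing every edge `ij` of the cell (`κ i = κ x`). The edges of the cell do not belong
to the piece. -/
def pcs {V : Type} (B : SimpleGraph V) (κ : V → Bool) (x y : V) (a M N : ℕ) :
    SimpleGraph (Ix V M N ⊕ Qx V a) :=
  SimpleGraph.fromRel fun u v =>
    (∃ m h, u = .inl (.inl m) ∧ v = .inr (.inl h)) ∨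
    (∃ i j c w w', B.Adj i j ∧ κ i = κ x ∧ B.Adj w w' ∧ s(w, w') ≠ s(x, y) ∧
      u = cp x y i j c w ∧ v = cp x y i j c w')

/-- PCB [Xfr]: the piece is `B`-free. -/
def PcbStmt : Prop :=
  ∀ (V : Type) [Finite V] (B : SimpleGraph V) (κ : V → Bool), TwoConn B →
    (∀ x y, B.Adj x y → κ x ≠ κ y) → ∀ (x y : V), B.Adj x y → ∀ a M N : ℕ,
    (∀ n, B.Free (completeBipartiteGraph (Fin a) (Fin n))) → B.Free (pcs B κ x y a M N)

/-! ### The graph -/

/-- Vertices: the hubs `inl h`, and the vertices of the system: points `(y, true)` and private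
vertices `(e, q)`. -/
abbrev Wh (V : Type) (a : ℕ) (Y E : Type) : Type :=
  Fin a ⊕ ((Y × Bool) ⊕ (E × Qx V a))

/-- The edges of the hubs. -/
def hubG (V : Type) (a : ℕ) (Y E : Type) : SimpleGraph (Wh V a Y E) :=
  SimpleGraph.fromRel fun u v => ∃ h y, u = .inl h ∧ v = .inr (.inl y)

/-- The edges of the cells. -/
def celG {V : Type} (B : SimpleGraph V) (a : ℕ) (Y E : Type) : SimpleGraph (Wh V a Y E) :=
  SimpleGraph.fromRel fun u v => ∃ e i j, B.Adj i j ∧ u = .inr (.inr (e, .inr i)) ∧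
    v = .inr (.inr (e, .inr j))

/-- The edges of the pieces. -/
def sysG {V I Y E : Type} {a : ℕ} (inc : E → I → Y) (P : SimpleGraph (I ⊕ Qx V a)) :
    SimpleGraph (Wh V a Y E) :=
  SimpleGraph.fromRel fun u v => ∃ p q, (Sys (fun _ => true) inc P).Adj p q ∧ u = .inr p ∧
    v = .inr q

/-- CLR [Sys]: the colouring (hubs and cells against pieces) has no monochromatic `H`. -/
def ClrStmt : Prop :=
  ∀ (V : Type) [Finite V] (B : SimpleGraph V), TwoConn B → ∀ a : ℕ,
    (∀ N, B.Free (completeBipartiteGraph (Fin a) (Fin N))) →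
    ∀ (I Y E : Type) [Finite I] [Finite Y] [Finite E] (inc : E → I → Y)
      (P : SimpleGraph (I ⊕ Qx V a)),
      (∀ e, Function.Injective (inc e)) → LeafyI (Nat.card V ^ 2) inc → B.Free P →
      ∀ (W : Type) [Finite W] (H : SimpleGraph W), H.Connected → B ⊑ H →
        Nat.card V < Nat.card W →
        H.Free (hubG V a Y E ⊔ celG B a Y E) ∧ H.Free (sysG (V := V) inc P)

/-- The colours used for the hypergraph. -/
abbrev Cx (a q : ℕ) : Type := (Fin a → Bool) × Fin (2 * q + 1)

/-- ARC [Dgc]: every colouring has a monochromatic copy of `B`. -/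
def ArcStmt : Prop :=
  ∀ (V : Type) [Finite V] (B : SimpleGraph V) (κ : V → Bool) (x y : V) (a : ℕ), 1 ≤ a →
    (∀ x y, B.Adj x y → κ x ≠ κ y) → B.Adj x y → 2 ≤ Nat.card V →
    B ⊑ completeBipartiteGraph (Fin (a + 1)) (Fin (Nat.card V)) →
    (∀ i j : ℕ, 1 ≤ i → 1 ≤ j → i + j = a → B ⊑ MixHost i j (Nat.card V)) →
    ∀ M N : ℕ, 2 ^ a * Nat.card V < M → 2 * Nat.card V < N →
      ∀ (Y E : Type) [Finite Y] [Finite E] (inc : E → Ix V M N → Y),
        (∀ e, Function.Injective (inc e)) → LeafyI 2 inc →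
        (∀ χ : Y → Cx a (Nat.card V), ∃ e c, ∀ i, χ (inc e i) = c) →
        ¬ InC B (hubG V a Y E ⊔ celG B a Y E ⊔ sysG inc (pcs B κ x y a M N))

/-! ### The theorems -/

/-- Non-equivalence. -/
def NeqPStmt : Prop :=
  ∀ (V : Type) [Finite V] (B : SimpleGraph V) (ℓ : V → ℕ), TwoConn B → B.Colorable 2 →
    (∃ v, 0 < ℓ v) → ¬ RamseyEquiv B (pendL B ℓ)

/-- The theorem. -/
def TopPStmt : Prop :=
  ∀ (V : Type) [Finite V] (B : SimpleGraph V) (ℓ : V → ℕ), TwoConn B → B.Colorable 2 →
    RamseySimple (pendL B ℓ)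

end Pool.Agent.PND80
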